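import Pool.Agent.TH890.BM.Thm

open Pool.Agent.TH890.BM

namespace Pool.Agent.Results.MP_39033f_nt.FourTermRelations

/-- The Breuil-Mezard conjecture for one residual representation of the Galois group of `K`, with
residue field of `p ^ f` elements.

`R`: the Grothendieck ring `G` of the mod `p` representations of `GL_2(k)`. `S`: the embeddings of `K`;
`κ`: their restriction to `k`; `c`: one chosen embedding of `K` above each embedding of `k`. `T`: the
inertial types; `x τ`: the class in `G` of the reduction of the representation attached to `τ`; `one`: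
the trivial type. `e h τ`: the Hilbert-Samuel multiplicity of the special fibre of the potentially
crystalline deformation ring with the Hodge type `h` and the Galois type `τ`. `tw σ`: twist of types by
the character which compensates a shift of the weights at `σ` by one.

The Breuil-Mezard identity holds for all Hodge types and all types iff, for each type, the
multiplicities satisfy the four-term relations, and the identity holds for the `p ^ f` basic Hodge
types and all types. -/
theorem result (p f : ℕ) (hp : p.Prime) [NeZero f] {G : Type} [CommRing G] (R : RepRing p f G)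
    {S : Type} [Fintype S] [DecidableEq S] (κ : S → ZMod f) (c : ZMod f → S)
    (hc : ∀ j, κ (c j) = j) {T : Type} (x : T → G) (one : T) (hone : x one = 1)
    (e : (S → ℤ × ℤ) → T → ℤ) (he : ∀ h τ, Dom h → 0 ≤ e h τ) (tw : S → Equiv.Perm T)
    (hx : ∀ σ τ, x (tw σ τ) = R.D (κ σ) * x τ)
    (ht : ∀ h σ τ, Dom h → e (bump h σ 1 1) τ = e h (tw σ τ)) :
    (∃ μ : Weight p f → ℤ, (∀ F, 0 ≤ μ F) ∧ ∀ h τ, Dom h →
      e h τ = ∑ F, R.basis.repr (R.cls κ h * x τ) F * μ F) ↔
    ((∀ τ, FourTerm p κ (alt fun h => e h τ)) ∧ ∀ h τ, Basic p κ c h →
      e h τ = ∑ F, R.basis.repr (R.cls κ h * x τ) F * e (hodgeOf κ c F) one) :=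
  main' R hp.two_le κ c hc x one hone e he tw hx ht

end Pool.Agent.Results.MP_39033f_nt.FourTermRelations
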